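import Pool.Agent.Y192.FA.StB

/-! The main estimate over function fields. -/

set_option autoImplicit false

namespace Pool.Agent.Y705.FA

open Filter Set Topology FF Pool.Agent.Y192.FA

section

variable {N : ℕ} (c : Curve N)

/-- `del z` as a homomorphism -/
noncomputable def delH (z : c.P) : (Fin N → ℤ) →+ ℤ where
  toFun m := c.del z m
  map_zero' := by simp [Curve.del]
  map_add' m m' := by
    unfold Curve.del
    rw [← Finset.sum_add_distrib]
    refine Finset.sum_congr rfl fun i _ => ?_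
    rw [Pi.add_apply]; ring

theorem del_sum (z : c.P) {ι : Type*} (s : Finset ι) (m : ι → Fin N → ℤ) :
    c.del z (∑ i ∈ s, m i) = ∑ i ∈ s, c.del z (m i) := map_sum (delH c z) m s

theorem del_smul (z : c.P) (a : ℤ) (m : Fin N → ℤ) : c.del z (a • m) = a * c.del z m := by
  have h := map_zsmul (delH c z) a m
  simpa [delH] using h

theorem ord_sum_ge (hord : St_ord) {z : c.P} (hz : z ∈ c.E) {ι : Type*} (s : Finset ι)
    (f : ι → c.Mr) (K : WithTop ℤ) (h : ∀ i ∈ s, K ≤ c.ord z (f i)) :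
    K ≤ c.ord z (∑ i ∈ s, f i) := by
  classical
  induction s using Finset.induction_on with
  | empty => rw [Finset.sum_empty, c.ord_top]; exact le_top
  | insert i s hi ih =>
    rw [Finset.sum_insert hi]
    refine le_trans (le_min ?_ ?_) (((hord N c).1 z hz).2.1 _ _)
    · exact h i (Finset.mem_insert_self _ _)
    · exact ih fun j hj => h j (Finset.mem_insert_of_mem hj)

theorem Dr_iter_add (l : ℕ) (f g : c.Mr) :
    ((c.Dr : c.Mr → c.Mr)^[l]) (f + g) = ((c.Dr : c.Mr → c.Mr)^[l]) f + ((c.Dr : c.Mr → c.Mr)^[l]) g := by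
  induction l generalizing f g with
  | zero => rfl
  | succ l ih => rw [Function.iterate_succ_apply, Function.iterate_succ_apply,
      Function.iterate_succ_apply, map_add, ih]

theorem Dr_iter_smul (l : ℕ) (a : ℂ) (f : c.Mr) :
    ((c.Dr : c.Mr → c.Mr)^[l]) (a • f) = a • ((c.Dr : c.Mr → c.Mr)^[l]) f := by
  induction l generalizing f with
  | zero => rfl
  | succ l ih => rw [Function.iterate_succ_apply, Function.iterate_succ_apply,
      Derivation.map_smul, ih]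

theorem Dr_iter_zero (l : ℕ) : ((c.Dr : c.Mr → c.Mr)^[l]) 0 = 0 := by
  have h := Dr_iter_smul c l 0 0
  rw [zero_smul, zero_smul] at h
  exact h

theorem Dr_iter_sum (l : ℕ) {ι : Type*} (s : Finset ι) (f : ι → c.Mr) :
    ((c.Dr : c.Mr → c.Mr)^[l]) (∑ i ∈ s, f i) = ∑ i ∈ s, ((c.Dr : c.Mr → c.Mr)^[l]) (f i) := by
  classical
  induction s using Finset.induction_on with
  | empty => simp [Dr_iter_zero]
  | insert i s hi ih => rw [Finset.sum_insert hi, Finset.sum_insert hi, Dr_iter_add, ih]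

theorem wrd_eq {M : ℕ} (f : Fin M → c.Mr) : c.wrd f = Matrix.detRowAlternating
    (fun b l : Fin M => ((c.Dr : c.Mr → c.Mr)^[(l : ℕ)]) (f b)) := rfl

theorem wrd_expand {M k : ℕ} (f : Fin M → c.Mr) (e : Fin k → c.Mr) (a : Fin M → Fin k → ℂ)
    (h : ∀ j, f j = ∑ i, a j i • e i) :
    c.wrd f = ∑ J : Fin M → Fin k, (∏ j, a j (J j)) • c.wrd (fun j => e (J j)) := by
  classical
  have h1 : (fun b l : Fin M => ((c.Dr : c.Mr → c.Mr)^[(l : ℕ)]) (f b)) =
      fun b => ∑ i, (algebraMap ℂ c.Mr (a b i)) •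
        (fun l : Fin M => ((c.Dr : c.Mr → c.Mr)^[(l : ℕ)]) (e i)) := by
    funext b l
    rw [h, Dr_iter_sum, Finset.sum_apply]
    refine Finset.sum_congr rfl fun i _ => ?_
    rw [Dr_iter_smul, Pi.smul_apply, algebraMap_smul]
  rw [wrd_eq, h1]
  have h2 := (Matrix.detRowAlternating (R := c.Mr) (n := Fin M)).toMultilinearMap.map_sum
    (α := fun _ : Fin M => Fin k)
    (fun b i => (algebraMap ℂ c.Mr (a b i)) •
        (fun l : Fin M => ((c.Dr : c.Mr → c.Mr)^[(l : ℕ)]) (e i)))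
  simp only [AlternatingMap.coe_multilinearMap] at h2
  rw [h2]
  refine Finset.sum_congr rfl fun J _ => ?_
  have h3 := (Matrix.detRowAlternating (R := c.Mr) (n := Fin M)).toMultilinearMap.map_smul_univ
    (fun j => algebraMap ℂ c.Mr (a j (J j)))
    (fun j => (fun l : Fin M => ((c.Dr : c.Mr → c.Mr)^[(l : ℕ)]) (e (J j))))
  simp only [AlternatingMap.coe_multilinearMap] at h3
  rw [h3, ← map_prod, algebraMap_smul]
  rfl

theorem wrd_noninj {M k : ℕ} (e : Fin k → c.Mr) (J : Fin M → Fin k) (h : ¬ Function.Injective J) :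
    c.wrd (fun j => e (J j)) = 0 := by
  rw [Function.not_injective_iff] at h
  obtain ⟨i, j, hij, hne⟩ := h
  exact Matrix.det_zero_of_row_eq hne (by
    funext l
    simp only [Matrix.of_apply, hij])

/-- sums over an injective family -/
theorem inj_sum {R : Type*} [CommRing R] [LinearOrder R] [IsStrictOrderedRing R] {k M : ℕ}
    (g : Fin k → R) (T : R) (hT : ∀ i, |g i| ≤ T) (J : Fin M → Fin k) (hJ : Function.Injective J) :
    ∑ j, g (J j) ≤ ∑ i, g i + ((k : R) - M) * T ∧ ∑ i, g i - ((k : R) - M) * T ≤ ∑ j, g (J j) := by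
  classical
  have h1 : ∑ j, g (J j) = ∑ i ∈ Finset.univ.image J, g i := by
    rw [Finset.sum_image fun x _ y _ h => hJ h]
  have h2 : ∑ i ∈ Finset.univ.image J, g i + ∑ i ∈ (Finset.univ.image J)ᶜ, g i = ∑ i, g i :=
    Finset.sum_add_sum_compl _ _
  have h3 : (Finset.univ.image J).card = M := by
    rw [Finset.card_image_of_injective _ hJ, Finset.card_univ, Fintype.card_fin]
  have h4 : ((Finset.univ.image J)ᶜ.card : R) = (k : R) - M := by
    rw [Finset.card_compl, h3, Fintype.card_fin, Nat.cast_sub]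
    have h5 := Finset.card_le_univ (Finset.univ.image J)
    rwa [h3, Fintype.card_fin] at h5
  have h5 : |∑ i ∈ (Finset.univ.image J)ᶜ, g i| ≤ ((k : R) - M) * T := by
    refine (Finset.abs_sum_le_sum_abs _ _).trans ?_
    refine (Finset.sum_le_card_nsmul _ _ T fun i _ => hT i).trans ?_
    rw [nsmul_eq_mul, h4]
  have h6 := abs_le.1 h5
  constructor <;> linarith [h6.1, h6.2]

theorem locfin_zero : c.LocFin (fun _ => 0) := by
  unfold Curve.LocFin
  simp [Function.support]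

theorem cnt_zero (hcnt : St_cnt) (R : ℝ) : c.cnt (fun _ => 0) R = 0 := by
  have h := ((hcnt N c).2.1 0 (fun _ => 0) (locfin_zero c)).2 R
  simpa using h

theorem cnt_sum (hcnt : St_cnt) {ι : Type*} (s : Finset ι) (E : ι → c.P → ℝ)
    (h : ∀ i ∈ s, c.LocFin (E i)) : c.LocFin (fun z => ∑ i ∈ s, E i z) ∧
      ∀ R, c.cnt (fun z => ∑ i ∈ s, E i z) R = ∑ i ∈ s, c.cnt (E i) R := by
  classical
  induction s using Finset.induction_on with
  | empty =>
    simp only [Finset.sum_empty]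
    exact ⟨locfin_zero c, fun R => cnt_zero c hcnt R⟩
  | insert i s hi ih =>
    simp only [Finset.sum_insert hi]
    have h1 := ih fun j hj => h j (Finset.mem_insert_of_mem hj)
    have h2 := (hcnt N c).1 (E i) (fun z => ∑ i ∈ s, E i z) (h i (Finset.mem_insert_self _ _)) h1.1
    exact ⟨h2.1, fun R => by rw [h2.2, h1.2]⟩

theorem locfin_abs_del (hcnt : St_cnt) (hord : St_ord) (m : Fin N → ℤ) :
    c.LocFin (fun z => ((|c.del z m| : ℤ) : ℝ)) := by
  refine (hcnt N c).2.2.2 (fun z => (c.del z m : ℤ)) _ ((hord N c).2.2.2.2.2.2.2 m) fun z _ => ?_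
  push_cast
  rw [abs_abs]

end

section

variable {N : ℕ} {c : Curve N} {F : c.Mr} (r : Rad c F) (Φ Ψ : Finset (Fin N → ℤ)) (w B k M : ℕ)
    (m : Fin k → Fin N → ℤ) (e : Fin k → c.Mr) (f : Fin M → c.Mr)

theorem del_le (hm : ∀ i, ∃ b : (Fin N → ℤ) → ℤ, (∀ ψ ∈ Ψ, |b ψ| ≤ B) ∧ m i = ∑ ψ ∈ Ψ, b ψ • ψ)
    (z : c.P) (i : Fin k) : |c.del z (m i)| ≤ B * ∑ ψ ∈ Ψ, |c.del z ψ| := by
  obtain ⟨b, hb, hmb⟩ := hm i
  rw [hmb, del_sum, Finset.mul_sum]
  refine (Finset.abs_sum_le_sum_abs _ _).trans (Finset.sum_le_sum fun ψ hψ => ?_)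
  rw [del_smul, abs_mul]
  have h1 := hb ψ hψ
  gcongr

/-- the bound for the orders -/
theorem ord_bound (hord : St_ord) (hwr : St_wr)
    (he : ∀ i, Ctl r (e i) (fun z => c.lam z (m i)) (fun z => c.del z (m i)) Φ w)
    (hm : ∀ i, ∃ b : (Fin N → ℤ) → ℤ, (∀ ψ ∈ Ψ, |b ψ| ≤ B) ∧ m i = ∑ ψ ∈ Ψ, b ψ • ψ)
    (hf : ∀ j, f j ∈ Submodule.span ℂ (Set.range e)) (ρ : c.P → ℤ)
    (hρ0 : ∀ z, 0 ≤ ρ z) (hρU : ∀ z, z ∉ c.U → ρ z = 0)
    (hρ : ∀ z ∈ c.U, ∀ j, (ρ z : WithTop ℤ) ≤ c.ord z (f j)) (z : c.P) :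
    ((c.del z (∑ i, m i) - ((k : ℤ) - M) * (B * ∑ ψ ∈ Ψ, |c.del z ψ|)
      - (M * w) * (∑ φ ∈ Φ, |c.del z φ| + c.bad z) - M ^ 2 * c.bad z + M * ρ z : ℤ) : WithTop ℤ) ≤
      c.ord z (c.wrd f) := by
  classical
  have hz : z ∈ c.E := trivial
  have ha : ∀ j, ∃ a : Fin k → ℂ, f j = ∑ i, a i • e i := fun j => by
    obtain ⟨a, ha⟩ := (Submodule.mem_span_range_iff_exists_fun ℂ).1 (hf j)
    exact ⟨a, ha.symm⟩
  choose a ha using ha
  have hexp := wrd_expand c f e a ha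
  by_cases hU : z ∈ c.U
  · have h1 : c.bad z = 0 := (hord N c).2.2.1 z hU
    have h2 : ∀ m, c.del z m = 0 := (hord N c).2.1 z hU
    have h3 := (hwr N c M f).2.2 z hU (ρ z).toNat (fun j => by
      have h4 := hρ z hU j
      have h5 : (((ρ z).toNat : ℤ)) = ρ z := Int.toNat_of_nonneg (hρ0 z)
      have h6 : (((ρ z).toNat : ℕ) : WithTop ℤ) = ((ρ z : ℤ) : WithTop ℤ) := by
        rw [← h5]; rfl
      rw [h6]
      exact h4)
    refine le_trans (le_of_eq ?_) h3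
    have h5 : (((ρ z).toNat : ℤ)) = ρ z := Int.toNat_of_nonneg (hρ0 z)
    have h7 : ((M * (ρ z).toNat : ℕ) : WithTop ℤ) = (((M * (ρ z).toNat : ℕ) : ℤ) : WithTop ℤ) := rfl
    rw [h7]
    congr 1
    push_cast
    rw [h5, h1]
    simp [h2]
  · rw [hexp]
    refine ord_sum_ge c hord hz _ _ _ fun J _ => ?_
    refine le_trans ?_ (((hord N c).1 z hz).2.2.1 _ _)
    by_cases hJ : Function.Injective J
    · have h1 := (hwr N c M (fun j => e (J j))).2.1 z hz
        (fun j => c.del z (m (J j)) - w * (∑ φ ∈ Φ, |c.del z φ| + c.bad z))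
        (fun j => (he (J j)).2 z hz)
      refine le_trans ?_ h1
      rw [WithTop.coe_le_coe]
      have h2 : ∑ i, c.del z (m i) - ((k : ℤ) - M) * (B * ∑ ψ ∈ Ψ, |c.del z ψ|) ≤
          ∑ j, c.del z (m (J j)) :=
        (inj_sum (fun i => c.del z (m i)) _ (del_le Ψ B k m hm z) J hJ).2
      have h3 : max 1 (c.bad z) = c.bad z := max_eq_right (((hord N c).2.2.2.1 z).2 hU)
      rw [hρU z hU, del_sum, Finset.sum_sub_distrib, Finset.sum_const, Finset.card_univ,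
        Fintype.card_fin, nsmul_eq_mul, h3]
      have h5 : (M : ℤ) * (w * (∑ φ ∈ Φ, |c.del z φ| + c.bad z)) =
          (M * w) * (∑ φ ∈ Φ, |c.del z φ| + c.bad z) := by
        ring
      rw [h5]
      linarith
    · rw [wrd_noninj c e J hJ, c.ord_top]
      exact le_top

end

/-- the main estimate -/
theorem t_gwl : St_ring → St_ord → St_cnt → St_jen → St_ht → St_wr → St_gwl := by
  intro hring hord hcnt hjen hht hwr N c F r Φ Ψ w B k M m e f ρ he hm hli hf hρ0 hρU hρL hρ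
  classical
  have hMk : M ≤ k := by
    have h1 := linearIndependent_le_span' f hli (Set.range e) (by
      rintro _ ⟨j, rfl⟩
      exact hf j)
    rw [Cardinal.mk_fin] at h1
    have h2 : Fintype.card (Set.range e) ≤ k := by
      have := Fintype.card_range_le e
      rwa [Fintype.card_fin] at this
    have h3 : M ≤ Fintype.card (Set.range e) := by exact_mod_cast h1
    exact h3.trans h2
  refine ⟨hMk, ?_⟩
  have hW : c.wrd f ≠ 0 := (hwr N c M f).1 hli
  have hO := ord_bound r Φ Ψ w B k M m e f hord hwr he hm hf ρ hρ0 hρU hρ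
  haveI : Nontrivial c.Mr := (hring N c).2.1
  have hm0 : c.mon (∑ i, m i) ≠ 0 := (c.monu (∑ i, m i)).ne_zero
  -- the counting functions
  have hlW := (hord N c).2.2.2.2.2.1 (c.wrd f) hW
  have hlm := (hord N c).2.2.2.2.2.1 (c.mon (∑ i, m i)) hm0
  have hlb := (hord N c).2.2.2.2.2.2.1
  have hld := (hord N c).2.2.2.2.2.2.2
  have hla : ∀ m, c.LocFin (fun z => ((|c.del z m| : ℤ) : ℝ)) := locfin_abs_del c hcnt hord
  obtain ⟨hadd, hmul, hmono, _⟩ := hcnt N c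
  have hΨ := cnt_sum c hcnt Ψ (fun ψ z => ((|c.del z ψ| : ℤ) : ℝ)) fun ψ _ => hla ψ
  have hΦ := cnt_sum c hcnt Φ (fun ψ z => ((|c.del z ψ| : ℤ) : ℝ)) fun ψ _ => hla ψ
  have hE : ∀ z : c.P, z ∈ c.E → (M : ℝ) * ((ρ z : ℤ) : ℝ) + ((c.del z (∑ i, m i) : ℤ) : ℝ) ≤
      (((c.ord z (c.wrd f)).untop₀ : ℤ) : ℝ) +
      ((((k : ℝ) - M) * B) * (∑ ψ ∈ Ψ, ((|c.del z ψ| : ℤ) : ℝ)) +
        ((M * w : ℝ) * (∑ φ ∈ Φ, ((|c.del z φ| : ℤ) : ℝ)) +
          (M * w + M ^ 2 : ℝ) * ((c.bad z : ℤ) : ℝ))) := by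
    intro z hzE
    have h1 := hO z
    have h2 := (hring N c).2.2.2 (c.wrd f) hW z hzE
    rw [← WithTop.coe_untop₀_of_ne_top h2, WithTop.coe_le_coe] at h1
    have h3 : ((c.del z (∑ i, m i) - ((k : ℤ) - M) * (B * ∑ ψ ∈ Ψ, |c.del z ψ|)
      - (M * w) * (∑ φ ∈ Φ, |c.del z φ| + c.bad z) - M ^ 2 * c.bad z + M * ρ z : ℤ) : ℝ) ≤
      (((c.ord z (c.wrd f)).untop₀ : ℤ) : ℝ) := by exact_mod_cast h1
    push_cast at h3 ⊢
    linarith
  have hcntle : ∀ R, (M : ℝ) * c.cnt (fun z => (ρ z : ℤ)) R +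
      c.cnt (fun z => ((c.del z (∑ i, m i) : ℤ) : ℝ)) R ≤
      c.cnt (fun z => (((c.ord z (c.wrd f)).untop₀ : ℤ) : ℝ)) R +
      ((((k : ℝ) - M) * B) * (∑ ψ ∈ Ψ, c.cnt (fun z => ((|c.del z ψ| : ℤ) : ℝ)) R) +
        ((M * w : ℝ) * (∑ φ ∈ Φ, c.cnt (fun z => ((|c.del z φ| : ℤ) : ℝ)) R) +
          (M * w + M ^ 2 : ℝ) * c.cnt (fun z => ((c.bad z : ℤ) : ℝ)) R)) := by
    intro R
    have a1 := hmul (M : ℝ) _ hρL
    have a2 := hadd _ _ a1.1 (hld (∑ i, m i))
    have b1 := hmul (((k : ℝ) - M) * B) _ hΨ.1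
    have b2 := hmul (M * w : ℝ) _ hΦ.1
    have b3 := hmul (M * w + M ^ 2 : ℝ) _ hlb
    have b4 := hadd _ _ b2.1 b3.1
    have b5 := hadd _ _ b1.1 b4.1
    have b6 := hadd _ _ hlW b5.1
    have h1 := hmono _ _ a2.1 b6.1 hE R
    rw [a2.2, a1.2, b6.2, b5.2, b1.2, b4.2, b2.2, b3.2, hΨ.2, hΦ.2] at h1
    exact h1
  have hcntm : ∀ R, c.cnt (fun z => (((c.ord z (c.mon (∑ i, m i))).untop₀ : ℤ) : ℝ)) R =
      c.cnt (fun z => ((c.del z (∑ i, m i) : ℤ) : ℝ)) R := by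
    intro R
    congr 1
    funext z
    rw [((hord N c).1 z trivial).2.2.2.2.2]
    rfl
  intro δ hδ
  refine Eventually.of_forall fun n => ?_
  have hR : c.r0 + 2 ≤ r.s n := r.hs n
  obtain ⟨_, _, _, _, hch, _, _⟩ := (hht N c).1 (r.s n) hR
  have hj1 := hjen N c (c.wrd f) hW (r.s n)
  have hj2 := hjen N c (c.mon (∑ i, m i)) hm0 (r.s n)
  rw [hcntm] at hj2
  have hcl2 := hcntle (r.s n)
  rw [hj1, hj2] at hcl2
  have hps : ∀ m, c.ht m (r.s n) = c.cnt (fun z => ((|c.del z m| : ℤ) : ℝ)) (r.s n) :=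
    (hht N c).2 (r.s n)
  simp only [hps]
  have hdc : 0 ≤ δ * c.ch (r.s n) := mul_nonneg hδ.le hch
  linarith

end Pool.Agent.Y705.FA
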